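import Mathlib

set_option autoImplicit false

namespace Pool.Agent.Results.MP_4bc86c_co.NoRainbow

lemma walk_sum {V K : Type*} [AddCommGroup K] (h2 : ∀ a : K, a + a = 0) (e : V → K)
    (G : SimpleGraph V) {u v : V} (w : G.Walk u v) :
    (w.edges.map (Sym2.lift ⟨fun x y => e x + e y, fun x y => add_comm _ _⟩)).sum = e u + e v := by
  induction w with
  | nil => simp [h2]
  | @cons a b c h p ih =>
    simp only [SimpleGraph.Walk.edges_cons, List.map_cons, List.sum_cons, ih, Sym2.lift_mk]
    calc e a + e b + (e b + e c) = e a + (e b + e b) + e c := by abel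
      _ = e a + e c := by rw [h2, add_zero]

lemma main (K : Type) [Field K] [Fintype K] [DecidableEq K] (h2 : ∀ a : K, a + a = 0) (n : ℕ)
    (hn : Fintype.card K = n) (h3 : 3 ≤ n) :
    ∃ c : Sym2 (Fin n) → Fin (n - 1),
      (∀ x y z : Fin n, x ≠ y → x ≠ z → y ≠ z → c s(x, y) ≠ c s(x, z)) ∧
      ∀ (v : Fin n) (w : (⊤ : SimpleGraph (Fin n)).Walk v v),
        w.IsCycle → w.length = n - 2 → ¬ (w.edges.map c).Nodup := by
  classical
  let e : Fin n ≃ K := (Fintype.equivFinOfCardEq hn).symm
  have hc : Fintype.card {a : K // a ≠ 0} = n - 1 := by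
    rw [Fintype.card_subtype_compl, hn]
    simp
  let β : {a : K // a ≠ 0} ≃ Fin (n - 1) := Fintype.equivFinOfCardEq hc
  let g : Sym2 (Fin n) → K := Sym2.lift ⟨fun x y => e x + e y, fun x y => add_comm _ _⟩
  let γ : K → Fin (n - 1) := fun a => if h : a ≠ 0 then β ⟨a, h⟩ else β ⟨1, one_ne_zero⟩
  have hne : ∀ x y : Fin n, x ≠ y → e x + e y ≠ 0 := by
    intro x y hxy h
    apply hxy
    apply e.injective
    have := h2 (e y)
    linear_combination h - this
  refine ⟨fun s => γ (g s), ?_, ?_⟩
  · intro x y z hxy hxz hyz h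
    have h1 : γ (e x + e y) = γ (e x + e z) := h
    simp only [γ, dif_pos (hne x y hxy), dif_pos (hne x z hxz)] at h1
    have h4 := congrArg Subtype.val (β.injective h1)
    exact hyz (e.injective (add_left_cancel h4))
  · intro v w _ hl hnd
    have hnd' : (w.edges.map g).Nodup := by
      have : w.edges.map (fun s => γ (g s)) = (w.edges.map g).map γ := by
        rw [List.map_map]; rfl
      rw [this] at hnd
      exact List.Nodup.of_map _ hnd
    have hsum : (w.edges.map g).sum = 0 := by
      rw [walk_sum h2 e ⊤ w, h2]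
    have hnz : ∀ a ∈ w.edges.map g, a ≠ 0 := by
      intro a ha
      obtain ⟨s, hs, rfl⟩ := List.mem_map.1 ha
      have hs2 := w.edges_subset_edgeSet hs
      induction s using Sym2.ind with
      | _ x y => exact hne x y (by simpa using hs2)
    let S : Finset K := (w.edges.map g).toFinset
    have hS : S.card = n - 2 := by
      rw [List.toFinset_card_of_nodup hnd', List.length_map, SimpleGraph.Walk.length_edges, hl]
    have hSsum : ∑ a ∈ S, a = 0 := by
      rw [← hsum, List.sum_toFinset _ hnd', List.map_id']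
    have h0 : (0 : K) ∉ S := fun h => hnz 0 (List.mem_toFinset.1 h) rfl
    have hcomp : (insert 0 S)ᶜ.card = 1 := by
      rw [Finset.card_compl, Finset.card_insert_of_notMem h0, hS, hn]
      omega
    obtain ⟨m, hm⟩ := Finset.card_eq_one.1 hcomp
    have hm0 : m ≠ 0 := by
      have : m ∈ (insert 0 S)ᶜ := by rw [hm]; exact Finset.mem_singleton_self m
      intro h
      rw [h] at this
      simp at this
    have htot : ∑ a : K, a ^ 1 = 0 :=
      FiniteField.sum_pow_lt_card_sub_one K 1 (by rw [hn]; omega)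
    simp only [pow_one] at htot
    rw [← Finset.sum_add_sum_compl (insert 0 S), hm, Finset.sum_insert h0, hSsum] at htot
    simp at htot
    exact hm0 htot

theorem result (k : ℕ) (hk : 3 ≤ k) :
    ∃ c : Sym2 (Fin (2 ^ k)) → Fin (2 ^ k - 1),
      (∀ x y z : Fin (2 ^ k), x ≠ y → x ≠ z → y ≠ z → c s(x, y) ≠ c s(x, z)) ∧
      ∀ (v : Fin (2 ^ k)) (w : (⊤ : SimpleGraph (Fin (2 ^ k))).Walk v v),
        w.IsCycle → w.length = 2 ^ k - 2 → ¬ (w.edges.map c).Nodup := by
  classical
  letI : Fintype (GaloisField 2 k) := Fintype.ofFinite _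
  have hcard : Fintype.card (GaloisField 2 k) = 2 ^ k := by
    rw [← Nat.card_eq_fintype_card]
    exact GaloisField.card 2 k (by omega)
  have h8 : 2 ^ 3 ≤ 2 ^ k := Nat.pow_le_pow_right (by norm_num) hk
  exact main (GaloisField 2 k) (fun a => CharTwo.add_self_eq_zero a) (2 ^ k) hcard (by omega)

end Pool.Agent.Results.MP_4bc86c_co.NoRainbow
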